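import Mathlib

/-!
# The standard complex Gaussian measure on finite products (for MP_4289a5_an)
-/

set_option autoImplicit false
set_option linter.unusedSectionVars false

namespace Pool.Agent.Helper561.Matvec

open MeasureTheory Set
open scoped ENNReal Pointwise

noncomputable section

/-- density of the standard complex Gaussian -/
def gd (z : ℂ) : ℝ := Real.exp (-‖z‖ ^ 2) / Real.pi

lemma gd_nonneg (z : ℂ) : 0 ≤ gd z := by unfold gd; positivity

lemma gd_pos (z : ℂ) : 0 < gd z := by unfold gd; positivity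

lemma gd_meas : Measurable gd := by
  unfold gd
  fun_prop

lemma gd_le (z : ℂ) : gd z ≤ 1 / Real.pi := by
  unfold gd
  have : Real.exp (-‖z‖ ^ 2) ≤ 1 := by
    rw [Real.exp_le_one_iff]
    nlinarith [sq_nonneg ‖z‖]
  gcongr

/-- the standard complex Gaussian measure -/
def rho : Measure ℂ := volume.withDensity (fun z => ENNReal.ofReal (gd z))

lemma int_exp : ∫ z : ℂ, Real.exp (-‖z‖ ^ 2) = Real.pi := by
  have h := Complex.integral_rpow_mul_exp_neg_rpow (p := 2) (q := 0) (by norm_num) (by norm_num)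
  have e : (∫ z : ℂ, ‖z‖ ^ (0 : ℝ) * Real.exp (-‖z‖ ^ (2 : ℝ))) = ∫ z : ℂ, Real.exp (-‖z‖ ^ 2) := by
    congr 1
    ext z
    rw [Real.rpow_zero, one_mul, Real.rpow_two]
  rw [e] at h
  rw [h]
  have : Real.Gamma ((0 + 2) / 2) = 1 := by norm_num [Real.Gamma_one]
  rw [this]; ring

lemma int_sq_exp : ∫ z : ℂ, ‖z‖ ^ 2 * Real.exp (-‖z‖ ^ 2) = Real.pi := by
  have h := Complex.integral_rpow_mul_exp_neg_rpow (p := 2) (q := 2) (by norm_num) (by norm_num)
  have e : (∫ z : ℂ, ‖z‖ ^ (2 : ℝ) * Real.exp (-‖z‖ ^ (2 : ℝ)))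
      = ∫ z : ℂ, ‖z‖ ^ 2 * Real.exp (-‖z‖ ^ 2) := by
    congr 1
    ext z
    rw [Real.rpow_two]
  rw [e] at h
  rw [h]
  have : Real.Gamma ((2 + 2) / 2) = 1 := by
    have : ((2 : ℝ) + 2) / 2 = (1 : ℕ) + 1 := by norm_num
    rw [this, Real.Gamma_nat_eq_factorial]
    norm_num
  rw [this]; ring

instance : IsProbabilityMeasure rho := by
  constructor
  unfold rho
  rw [withDensity_apply _ MeasurableSet.univ, Measure.restrict_univ]
  have hint : Integrable (fun z : ℂ => gd z) := by
    by_contra hcon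
    have h := int_exp
    have h2 : ∫ z : ℂ, gd z = 1 := by
      unfold gd
      rw [integral_div, h, div_self Real.pi_pos.ne']
    rw [integral_undef hcon] at h2
    norm_num at h2
  rw [← ofReal_integral_eq_lintegral_ofReal hint (Filter.Eventually.of_forall gd_nonneg)]
  have h2 : ∫ z : ℂ, gd z = 1 := by
    unfold gd
    rw [integral_div, int_exp, div_self Real.pi_pos.ne']
  rw [h2, ENNReal.ofReal_one]

lemma rho_tail {R : ℝ} (hR : 0 < R) : rho {z | R < ‖z‖} ≤ ENNReal.ofReal (1 / R ^ 2) := by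
  have hint : Integrable (fun z : ℂ => ‖z‖ ^ 2 * gd z) := by
    by_contra hcon
    have h2 : ∫ z : ℂ, ‖z‖ ^ 2 * gd z = 1 := by
      unfold gd
      have : (fun z : ℂ => ‖z‖ ^ 2 * (Real.exp (-‖z‖ ^ 2) / Real.pi))
          = fun z : ℂ => (‖z‖ ^ 2 * Real.exp (-‖z‖ ^ 2)) / Real.pi := by
        ext z; ring
      rw [this, integral_div, int_sq_exp, div_self Real.pi_pos.ne']
    rw [integral_undef hcon] at h2
    norm_num at h2
  have hint2 : ∫ z : ℂ, ‖z‖ ^ 2 * gd z = 1 := by
    unfold gd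
    have : (fun z : ℂ => ‖z‖ ^ 2 * (Real.exp (-‖z‖ ^ 2) / Real.pi))
        = fun z : ℂ => (‖z‖ ^ 2 * Real.exp (-‖z‖ ^ 2)) / Real.pi := by
      ext z; ring
    rw [this, integral_div, int_sq_exp, div_self Real.pi_pos.ne']
  have hms : MeasurableSet {z : ℂ | R < ‖z‖} := measurableSet_lt measurable_const measurable_norm
  unfold rho
  rw [withDensity_apply _ hms]
  calc ∫⁻ z in {z : ℂ | R < ‖z‖}, ENNReal.ofReal (gd z)
      ≤ ∫⁻ z in {z : ℂ | R < ‖z‖}, ENNReal.ofReal (1 / R ^ 2 * (‖z‖ ^ 2 * gd z)) := by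
        apply setLIntegral_mono' hms
        intro z hz
        apply ENNReal.ofReal_le_ofReal
        have hz' : R < ‖z‖ := hz
        have h1 : 1 ≤ 1 / R ^ 2 * ‖z‖ ^ 2 := by
          rw [one_div, ← div_eq_inv_mul, le_div_iff₀ (by positivity)]
          nlinarith
        nlinarith [gd_nonneg z]
    _ ≤ ∫⁻ z, ENNReal.ofReal (1 / R ^ 2 * (‖z‖ ^ 2 * gd z)) := setLIntegral_le_lintegral _ _
    _ = ENNReal.ofReal (∫ z : ℂ, 1 / R ^ 2 * (‖z‖ ^ 2 * gd z)) := by
        rw [ofReal_integral_eq_lintegral_ofReal (hint.const_mul _)]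
        refine Filter.Eventually.of_forall fun z => ?_
        have := gd_nonneg z
        positivity
    _ = ENNReal.ofReal (1 / R ^ 2) := by
        rw [integral_const_mul, hint2, mul_one]

lemma rho_ball (c : ℂ) {r : ℝ} (hr : 0 ≤ r) : rho (Metric.ball c r) ≤ ENNReal.ofReal (r ^ 2) := by
  unfold rho
  rw [withDensity_apply _ Metric.isOpen_ball.measurableSet]
  calc ∫⁻ z in Metric.ball c r, ENNReal.ofReal (gd z)
      ≤ ∫⁻ z in Metric.ball c r, ENNReal.ofReal (1 / Real.pi) := by
        apply lintegral_mono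
        intro z
        exact ENNReal.ofReal_le_ofReal (gd_le z)
    _ = ENNReal.ofReal (1 / Real.pi) * volume (Metric.ball c r) := by
        rw [setLIntegral_const]
    _ = ENNReal.ofReal (r ^ 2) := by
        rw [Complex.volume_ball]
        have : (NNReal.pi : ℝ≥0∞) = ENNReal.ofReal Real.pi := by
          rw [← NNReal.coe_real_pi, ENNReal.ofReal_coe_nnreal]
        rw [this, ← ENNReal.ofReal_pow hr, ← ENNReal.ofReal_mul (by positivity),
          ← ENNReal.ofReal_mul (by positivity)]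
        congr 1
        field_simp

/-! ### products -/

section prod

variable {κ : Type*} [Fintype κ] [DecidableEq κ]

/-- the standard complex Gaussian measure on `κ → ℂ` -/
def gau (κ : Type*) [Fintype κ] : Measure (κ → ℂ) := Measure.pi (fun _ => rho)

instance : IsProbabilityMeasure (gau κ) := by unfold gau; infer_instance

/-- squared Euclidean norm -/
def nsq (x : κ → ℂ) : ℝ := ∑ k, ‖x k‖ ^ 2

lemma nsq_nonneg (x : κ → ℂ) : 0 ≤ nsq x := Finset.sum_nonneg fun _ _ => by positivity

lemma nsq_meas : Measurable (nsq : (κ → ℂ) → ℝ) := by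
  unfold nsq
  fun_prop

/-- the density of `gau` -/
def dens (x : κ → ℂ) : ℝ≥0∞ := ENNReal.ofReal (Real.exp (-nsq x) / Real.pi ^ (Fintype.card κ))

lemma dens_meas : Measurable (dens : (κ → ℂ) → ℝ≥0∞) := by
  unfold dens
  have := nsq_meas (κ := κ)
  fun_prop

lemma dens_eq_prod (x : κ → ℂ) : dens x = ∏ k, ENNReal.ofReal (gd (x k)) := by
  unfold dens gd nsq
  rw [← ENNReal.ofReal_prod_of_nonneg (fun _ _ => by positivity)]
  congr 1
  rw [Finset.prod_div_distrib, Finset.prod_const, Finset.card_univ, ← Real.exp_sum,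
    Finset.sum_neg_distrib]

lemma lmarginal_prod (f : κ → ℂ → ℝ≥0∞) (hf : ∀ k, Measurable (f k)) (s : Finset κ)
    (x : κ → ℂ) :
    (∫⋯∫⁻_s, (fun y : κ → ℂ => ∏ k, f k (y k)) ∂(fun _ => (volume : Measure ℂ))) x
      = (∏ k ∈ s, ∫⁻ z, f k z) * ∏ k ∈ sᶜ, f k (x k) := by
  induction s using Finset.induction_on generalizing x with
  | empty => simp
  | insert i s hi ih =>
    rw [lmarginal_insert _ (by fun_prop) hi]
    simp_rw [ih]
    rw [Finset.prod_insert hi]
    have h1 : ∀ z : ℂ, ∏ k ∈ sᶜ, f k (Function.update x i z k)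
        = f i z * ∏ k ∈ (insert i s)ᶜ, f k (x k) := by
      intro z
      have hmem : i ∈ sᶜ := Finset.mem_compl.mpr hi
      rw [← Finset.mul_prod_erase _ _ hmem, Function.update_self]
      congr 1
      have h2 : sᶜ.erase i = (insert i s)ᶜ := by
        ext k
        simp only [Finset.mem_erase, Finset.mem_compl, Finset.mem_insert, not_or]
      rw [h2]
      apply Finset.prod_congr rfl
      intro k hk
      have : k ≠ i := by
        intro h
        rw [h] at hk
        simp at hk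
      rw [Function.update_of_ne this]
    simp_rw [h1]
    rw [lintegral_const_mul _ (by fun_prop), lintegral_mul_const _ (hf i)]
    ring

lemma lintegral_prod_eq (f : κ → ℂ → ℝ≥0∞) (hf : ∀ k, Measurable (f k)) :
    ∫⁻ y : κ → ℂ, ∏ k, f k (y k) = ∏ k, ∫⁻ z, f k z := by
  have h := lmarginal_prod f hf Finset.univ 0
  rw [lmarginal_univ] at h
  rw [Finset.compl_univ, Finset.prod_empty, mul_one] at h
  exact h

theorem gau_eq : gau κ = volume.withDensity dens := by
  unfold gau
  apply Measure.pi_eq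
  intro s hs
  rw [withDensity_apply _ (MeasurableSet.univ_pi hs)]
  have h1 : ∫⁻ y in Set.univ.pi s, dens y
      = ∫⁻ y : κ → ℂ, ∏ k, ((s k).indicator (fun z => ENNReal.ofReal (gd z)) (y k)) := by
    rw [← lintegral_indicator (MeasurableSet.univ_pi hs)]
    congr 1
    ext y
    by_cases hy : y ∈ Set.univ.pi s
    · rw [Set.indicator_of_mem hy, dens_eq_prod]
      apply Finset.prod_congr rfl
      intro k _
      rw [Set.indicator_of_mem (hy k (Set.mem_univ k))]
    · rw [Set.indicator_of_notMem hy]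
      have : ∃ k, y k ∉ s k := by
        by_contra hcon
        push Not at hcon
        exact hy fun k _ => hcon k
      obtain ⟨k, hk⟩ := this
      rw [Finset.prod_eq_zero (Finset.mem_univ k)]
      rw [Set.indicator_of_notMem hk]
  rw [h1, lintegral_prod_eq]
  · apply Finset.prod_congr rfl
    intro k _
    rw [lintegral_indicator (hs k)]
    unfold rho
    rw [withDensity_apply _ (hs k)]
  · intro k
    exact (gd_meas.ennreal_ofReal).indicator (hs k)

lemma gau_ac : gau κ ≪ (volume : Measure (κ → ℂ)) := by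
  rw [gau_eq]
  exact withDensity_absolutelyContinuous _ _

lemma lintegral_gau (f : (κ → ℂ) → ℝ≥0∞) (hf : Measurable f) :
    ∫⁻ x, f x ∂(gau κ) = ∫⁻ x, dens x * f x := by
  rw [gau_eq, lintegral_withDensity_eq_lintegral_mul _ dens_meas hf]
  rfl

/-- change of variables for real linear maps -/
lemma lintegral_comp_linear (Φ : (κ → ℂ) →ₗ[ℝ] (κ → ℂ)) (hΦ : LinearMap.det Φ ≠ 0)
    (f : (κ → ℂ) → ℝ≥0∞) (hf : Measurable f) :
    ∫⁻ x, f x = ENNReal.ofReal |LinearMap.det Φ| * ∫⁻ x, f (Φ x) := by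
  have hc : Measurable Φ := (LinearMap.continuous_of_finiteDimensional Φ).measurable
  have h := Measure.map_linearMap_addHaar_eq_smul_addHaar (μ := (volume : Measure (κ → ℂ))) hΦ
  have h1 : ∫⁻ x, f (Φ x) = ∫⁻ x, f x ∂(Measure.map Φ volume) := (lintegral_map hf hc).symm
  rw [h1, h, lintegral_smul_measure, smul_eq_mul, ← mul_assoc, ← ENNReal.ofReal_mul (abs_nonneg _),
    ← abs_mul, mul_inv_cancel₀ hΦ, abs_one, ENNReal.ofReal_one, one_mul]

/-- a real linear map preserving the Euclidean norm preserves the Gaussian measure -/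
theorem gau_map_of_isometry (Φ : (κ → ℂ) →ₗ[ℝ] (κ → ℂ)) (hs : Function.Surjective Φ)
    (h : ∀ x, nsq (Φ x) = nsq x) : (gau κ).map Φ = gau κ := by
  have hc : Continuous Φ := LinearMap.continuous_of_finiteDimensional Φ
  have hm : Measurable Φ := hc.measurable
  set B : Set (κ → ℂ) := {x | nsq x ≤ 1} with hB
  have hnc : Continuous (nsq : (κ → ℂ) → ℝ) := by unfold nsq; fun_prop
  have himg : Φ '' B = B := by
    ext y
    constructor
    · rintro ⟨x, hx, rfl⟩
      simp only [hB, mem_ofPred_eq] at hx ⊢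
      rw [h]; exact hx
    · intro hy
      obtain ⟨x, rfl⟩ := hs y
      refine ⟨x, ?_, rfl⟩
      simp only [hB, mem_ofPred_eq] at hy ⊢
      rw [← h]; exact hy
  have h1 := Measure.addHaar_image_linearMap (volume : Measure (κ → ℂ)) Φ B
  rw [himg] at h1
  have hfin : volume B ≠ ∞ := by
    have hsub : B ⊆ Metric.closedBall (0 : κ → ℂ) 1 := by
      intro x hx
      rw [mem_closedBall_zero_iff, pi_norm_le_iff_of_nonneg zero_le_one]
      intro k
      have h2 : ‖x k‖ ^ 2 ≤ nsq x :=
        Finset.single_le_sum (f := fun k => ‖x k‖ ^ 2) (fun _ _ => by positivity)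
          (Finset.mem_univ k)
      have h3 : nsq x ≤ 1 := hx
      have h4 : ‖x k‖ ^ 2 ≤ 1 ^ 2 := by rw [one_pow]; exact h2.trans h3
      exact le_of_sq_le_sq h4 zero_le_one
    exact ((measure_mono hsub).trans_lt measure_closedBall_lt_top).ne
  have hpos : volume B ≠ 0 := by
    have hopen : IsOpen {x : κ → ℂ | nsq x < 1} := isOpen_lt hnc continuous_const
    have hne : ({x : κ → ℂ | nsq x < 1}).Nonempty := ⟨0, by simp [nsq]⟩
    have h2 := hopen.measure_pos volume hne
    have h3 : {x : κ → ℂ | nsq x < 1} ⊆ B := by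
      intro x hx
      simp only [hB, mem_ofPred_eq] at hx ⊢
      exact hx.le
    exact (h2.trans_le (measure_mono h3)).ne'
  have h2 : ENNReal.ofReal |LinearMap.det Φ| = 1 := by
    have h3 : ENNReal.ofReal |LinearMap.det Φ| * volume B = 1 * volume B := by rw [← h1, one_mul]
    exact (ENNReal.mul_left_inj hpos hfin).mp h3
  have hdet : LinearMap.det Φ ≠ 0 := by
    intro h0
    rw [h0] at h2
    simp at h2
  ext A hA
  rw [Measure.map_apply hm hA, gau_eq, withDensity_apply _ (hm hA), withDensity_apply _ hA,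
    ← lintegral_indicator (hm hA), ← lintegral_indicator hA,
    lintegral_comp_linear Φ hdet _ (dens_meas.indicator hA), h2, one_mul]
  congr 1
  ext x
  by_cases hx : Φ x ∈ A
  · rw [Set.indicator_of_mem hx, Set.indicator_of_mem (show x ∈ Φ ⁻¹' A from hx)]
    unfold dens
    rw [h]
  · rw [Set.indicator_of_notMem hx, Set.indicator_of_notMem (show x ∉ Φ ⁻¹' A from hx)]

/-- bound of the determinant of a map that does not expand the sup norm much -/
lemma abs_det_le (Φ : (κ → ℂ) →ₗ[ℝ] (κ → ℂ)) {c : ℝ} (hc : 0 < c)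
    (h : ∀ x, ‖Φ x‖ ≤ c * ‖x‖) : |LinearMap.det Φ| ≤ c ^ (2 * Fintype.card κ) := by
  have h1 := Measure.addHaar_image_linearMap (volume : Measure (κ → ℂ)) Φ (Metric.closedBall 0 1)
  have h2 : Φ '' (Metric.closedBall 0 1) ⊆ c • (Metric.closedBall (0 : κ → ℂ) 1) := by
    rintro _ ⟨x, hx, rfl⟩
    rw [mem_smul_set_iff_inv_smul_mem₀ hc.ne']
    rw [mem_closedBall_zero_iff] at hx ⊢
    rw [norm_smul, norm_inv, Real.norm_of_nonneg hc.le, inv_mul_le_iff₀ hc]
    calc ‖Φ x‖ ≤ c * ‖x‖ := h x
      _ ≤ c * 1 := by gcongr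
  have h3 := measure_mono (μ := (volume : Measure (κ → ℂ))) h2
  rw [h1, Measure.addHaar_smul] at h3
  have hfin : volume (Metric.closedBall (0 : κ → ℂ) 1) ≠ ∞ := measure_closedBall_lt_top.ne
  have hpos : volume (Metric.closedBall (0 : κ → ℂ) 1) ≠ 0 :=
    (Metric.measure_closedBall_pos _ _ one_pos).ne'
  have h4 := (ENNReal.mul_le_mul_iff_left hpos hfin).mp h3
  have h5 := (ENNReal.ofReal_le_ofReal_iff (abs_nonneg _)).mp h4
  have hfr : Module.finrank ℝ (κ → ℂ) = 2 * Fintype.card κ := by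
    rw [Module.finrank_pi_fintype]
    simp [Complex.finrank_real_complex, mul_comm]
  rw [hfr, abs_of_pos (a := c ^ (2 * Fintype.card κ)) (by positivity)] at h5
  exact h5

end prod

end

end Pool.Agent.Helper561.Matvec
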