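import Mathlib
import Pool.Agent.Helper561.Matvec.Gauss

/-!
# Anticoncentration of the entries of the inverse of a Gaussian matrix (for MP_4289a5_an)
-/

set_option autoImplicit false
set_option linter.unusedSectionVars false

namespace Pool.Agent.Helper561.Matvec

open MeasureTheory Set
open scoped ENNReal Pointwise

noncomputable section

variable {κ m : Type*} [Fintype κ] [DecidableEq κ] [Fintype m] [DecidableEq m]

/-- matrix read off from a vector -/
def rd (σ : m → m → κ) (x : κ → ℂ) : Matrix m m ℂ := Matrix.of fun a b => x (σ a b)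

@[simp] lemma rd_apply (σ : m → m → κ) (x : κ → ℂ) (a b : m) : rd σ x a b = x (σ a b) := rfl

/-- injectivity of the entry map -/
def Inj (σ : m → m → κ) : Prop := ∀ a b a' b', σ a b = σ a' b' → a = a' ∧ b = b'

lemma rd_cont (σ : m → m → κ) : Continuous (rd σ) := by
  apply continuous_matrix
  intro i j
  exact continuous_apply _

lemma det_rd_cont (σ : m → m → κ) : Continuous (fun x => (rd σ x).det) :=
  (rd_cont σ).matrix_det

lemma inv_rd_entry_meas (σ : m → m → κ) (k i : m) : Measurable (fun x => (rd σ x)⁻¹ k i) := by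
  have h : (fun x => (rd σ x)⁻¹ k i) = fun x => ((rd σ x).det)⁻¹ * (rd σ x).adjugate k i := by
    ext x
    rw [Matrix.inv_def, Ring.inverse_eq_inv', Matrix.smul_apply, smul_eq_mul]
  rw [h]
  apply Measurable.mul
  · exact (det_rd_cont σ).measurable.inv
  · exact ((rd_cont σ).matrix_adjugate.matrix_elem k i).measurable

lemma rd_update {σ : m → m → κ} (hσ : Inj σ) (x : κ → ℂ) (i k : m) (z : ℂ) :
    rd σ (Function.update x (σ i k) z)
      = (rd σ x).updateRow i (Function.update (rd σ x i) k z) := by
  ext a b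
  rw [rd_apply]
  by_cases ha : a = i
  · subst ha
    rw [Matrix.updateRow_self]
    by_cases hb : b = k
    · subst hb
      rw [Function.update_self, Function.update_self]
    · rw [Function.update_of_ne hb, Function.update_of_ne, rd_apply]
      intro h
      exact hb (hσ _ _ _ _ h).2
  · rw [Matrix.updateRow_ne ha, Function.update_of_ne, rd_apply]
    intro h
    exact ha (hσ _ _ _ _ h).1

lemma det_update (A : Matrix m m ℂ) (i k : m) (z : ℂ) :
    (A.updateRow i (Function.update (A i) k z)).det = A.det + (z - A i k) * A.adjugate k i := by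
  have h : Function.update (A i) k z = A i + (z - A i k) • (Pi.single k 1 : m → ℂ) := by
    ext b
    by_cases hb : b = k
    · subst hb
      simp
    · rw [Function.update_of_ne hb]
      simp [hb]
  rw [h, Matrix.det_updateRow_add, Matrix.det_updateRow_smul, Matrix.updateRow_eq_self,
    Matrix.adjugate_apply]

lemma adj_update (A : Matrix m m ℂ) (i k : m) (v : m → ℂ) :
    (A.updateRow i v).adjugate k i = A.adjugate k i := by
  rw [Matrix.adjugate_apply, Matrix.adjugate_apply, Matrix.updateRow_idem]

lemma inv_update (A : Matrix m m ℂ) (i k : m) (z : ℂ) :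
    (A.updateRow i (Function.update (A i) k z))⁻¹ k i
      = (A.det + (z - A i k) * A.adjugate k i)⁻¹ * A.adjugate k i := by
  rw [Matrix.inv_def, Ring.inverse_eq_inv', Matrix.smul_apply, smul_eq_mul, det_update, adj_update]

theorem anti {σ : m → m → κ} (hσ : Inj σ) (i k : m) {B : ℝ} (hB : 0 < B) :
    gau κ {x | (rd σ x).det ≠ 0 ∧ B < ‖(rd σ x)⁻¹ k i‖} ≤ ENNReal.ofReal (1 / B ^ 2) := by
  set S : Set (κ → ℂ) := {x | (rd σ x).det ≠ 0 ∧ B < ‖(rd σ x)⁻¹ k i‖} with hS
  have hSm : MeasurableSet S := by
    apply MeasurableSet.inter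
    · exact (isOpen_ne_fun (det_rd_cont σ) continuous_const).measurableSet
    · exact measurableSet_lt measurable_const (inv_rd_entry_meas σ k i).norm
  have h1 : gau κ S = ∫⁻ x, S.indicator 1 x ∂(gau κ) := (lintegral_indicator_one hSm).symm
  have h2 : ENNReal.ofReal (1 / B ^ 2) = ∫⁻ _x : κ → ℂ, ENNReal.ofReal (1 / B ^ 2) ∂(gau κ) := by
    rw [lintegral_const, measure_univ, mul_one]
  rw [h1, h2]
  unfold gau
  apply lintegral_le_of_lmarginal_le {σ i k} (measurable_one.indicator hSm) measurable_const
  intro x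
  rw [lmarginal_singleton, lmarginal_singleton]
  simp only [lintegral_const, measure_univ, mul_one]
  set A := rd σ x with hA
  set a := A.adjugate k i with ha
  have h3 : ∀ z : ℂ, S.indicator (1 : (κ → ℂ) → ℝ≥0∞) (Function.update x (σ i k) z)
      = {z : ℂ | Function.update x (σ i k) z ∈ S}.indicator 1 z := by
    intro z
    by_cases hz : Function.update x (σ i k) z ∈ S
    · rw [Set.indicator_of_mem hz, Set.indicator_of_mem (by exact hz)]
      rfl
    · rw [Set.indicator_of_notMem hz, Set.indicator_of_notMem (by exact hz)]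
  simp_rw [h3]
  have hms : MeasurableSet {z : ℂ | Function.update x (σ i k) z ∈ S} :=
    (measurable_update x) hSm
  rw [lintegral_indicator_one hms]
  have hsub : {z : ℂ | Function.update x (σ i k) z ∈ S}
      ⊆ Metric.ball (-((A.det - A i k * a) / a)) (1 / B) := by
    intro z hz
    simp only [mem_ofPred_eq, hS] at hz
    rw [rd_update hσ, inv_update, det_update] at hz
    obtain ⟨hz1, hz2⟩ := hz
    rw [← hA, ← ha] at hz1 hz2
    rw [norm_mul, norm_inv] at hz2
    have hane : a ≠ 0 := by
      intro h0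
      rw [h0, norm_zero, mul_zero] at hz2
      linarith
    have hnp : 0 < ‖a‖ := norm_pos_iff.mpr hane
    have hdp : 0 < ‖A.det + (z - A i k) * a‖ := norm_pos_iff.mpr hz1
    rw [Metric.mem_ball, dist_eq_norm]
    have e : z - -((A.det - A i k * a) / a) = (A.det + (z - A i k) * a) / a := by
      field_simp
      ring
    rw [e, norm_div, div_lt_div_iff₀ hnp hB]
    rw [inv_mul_eq_div, lt_div_iff₀ hdp] at hz2
    linarith
  calc rho {z : ℂ | Function.update x (σ i k) z ∈ S} ≤ rho (Metric.ball _ (1 / B)) :=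
        measure_mono hsub
    _ ≤ ENNReal.ofReal ((1 / B) ^ 2) := rho_ball _ (by positivity)
    _ = ENNReal.ofReal (1 / B ^ 2) := by rw [one_div_pow]

theorem det_ne_zero_ae {σ : m → m → κ} (hσ : Inj σ) : ∀ᵐ x ∂(gau κ), (rd σ x).det ≠ 0 := by
  apply gau_ac.ae_le
  classical
  let v0 : κ → ℂ := fun c => if ∃ a, σ a a = c then 1 else 0
  have hrd : ∀ (x : κ → ℂ) (z : ℂ), rd σ (x + z • v0) = rd σ x + Matrix.scalar m z := by
    intro x z
    ext a b
    simp only [rd_apply, Pi.add_apply, Pi.smul_apply, smul_eq_mul, Matrix.add_apply,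
      Matrix.scalar_apply]
    congr 1
    by_cases hab : a = b
    · subst hab
      have : v0 (σ a a) = 1 := if_pos ⟨a, rfl⟩
      rw [this, mul_one, Matrix.diagonal_apply_eq]
    · have : v0 (σ a b) = 0 := by
        apply if_neg
        rintro ⟨c, hc⟩
        have := hσ _ _ _ _ hc
        exact hab (this.1.symm.trans this.2)
      rw [this, mul_zero, Matrix.diagonal_apply_ne _ hab]
  let N : Set ((κ → ℂ) × ℂ) := {p | (rd σ (p.1 + p.2 • v0)).det = 0}
  have hNm : MeasurableSet N := by
    have hc : Continuous (fun p : (κ → ℂ) × ℂ => (rd σ (p.1 + p.2 • v0)).det) :=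
      (det_rd_cont σ).comp (by fun_prop)
    exact (isClosed_singleton.preimage hc).measurableSet
  have hN0 : (volume : Measure (κ → ℂ)).prod (volume : Measure ℂ) N = 0 := by
    rw [Measure.prod_apply hNm]
    apply lintegral_eq_zero_of_ae_eq_zero
    refine Filter.Eventually.of_forall fun x => ?_
    have hfin : (Prod.mk x ⁻¹' N).Finite := by
      have h1 : Prod.mk x ⁻¹' N ⊆ {z : ℂ | (-(rd σ x)).charpoly.IsRoot z} := by
        intro z hz
        have hz' : (rd σ (x + z • v0)).det = 0 := hz
        rw [mem_ofPred_eq, Polynomial.IsRoot.def, Matrix.eval_charpoly, sub_neg_eq_add, add_comm,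
          ← hrd]
        exact hz'
      exact (Polynomial.finite_setOfPred_isRoot (Matrix.charpoly_monic _).ne_zero).subset h1
    exact hfin.measure_zero _
  rw [Measure.prod_apply_symm hNm, lintegral_eq_zero_iff (measurable_measure_prodMk_right hNm)] at hN0
  obtain ⟨z, hz⟩ := hN0.exists
  have h2 : (fun x => (x, z)) ⁻¹' N = (fun x => x + z • v0) ⁻¹' {x | (rd σ x).det = 0} := rfl
  simp only [Pi.zero_apply] at hz
  rw [h2, measure_preimage_add_right] at hz
  show {x : κ → ℂ | (rd σ x).det ≠ 0} ∈ ae volume
  rw [mem_ae_iff]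
  have h3 : {x : κ → ℂ | (rd σ x).det ≠ 0}ᶜ = {x | (rd σ x).det = 0} := by
    ext x
    simp
  rw [h3]
  exact hz

end

end Pool.Agent.Helper561.Matvec
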