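import Mathlib
import Pool.Agent.Helper634.Matvec.Defs
import Pool.Agent.Helper561.Matvec.Anti

/-!
# Algebra of the block cyclic shift (for MP_4289a5_an, piece I)
-/

set_option autoImplicit false
set_option linter.unusedSectionVars false

namespace Pool.Agent.Helper561.Matvec

open MeasureTheory Set Matrix
open Pool.Agent.Helper634.Matvec
open scoped ENNReal

noncomputable section

variable {T : ℕ}

/-- one step of the shift -/
lemma core_mulVec (g : ℂ) (u : HId T → ℂ) (x : HId T) :
    (core T g *ᵥ u) x = if h : (x.1 : ℕ) = 0 then g * u (Fin.last T, x.2)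
      else u (⟨(x.1 : ℕ) - 1, by omega⟩, x.2) := by
  have key : ∀ y : HId T, y.2 = x.2 →
      (∀ z : HId T, z ≠ y → core T g x z = 0) → (core T g *ᵥ u) x = core T g x y * u y := by
    intro y _ hz
    rw [Matrix.mulVec, dotProduct, Finset.sum_eq_single y]
    · intro z _ hzy
      rw [hz z hzy, zero_mul]
    · intro h; exact absurd (Finset.mem_univ _) h
  split_ifs with h
  · rw [key (Fin.last T, x.2) rfl]
    · simp [core, h]
    · intro z hz
      unfold core
      split_ifs with h1 h2 h3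
      · omega
      · exfalso
        apply hz
        ext1
        · exact Fin.ext (by simpa using h3.2)
        · exact h1.symm
      · rfl
      · rfl
  · rw [key (⟨(x.1 : ℕ) - 1, by omega⟩, x.2) rfl]
    · have : (x.1 : ℕ) = (x.1 : ℕ) - 1 + 1 := by omega
      simp [core, ← this]
    · intro z hz
      unfold core
      split_ifs with h1 h2 h3
      · exfalso
        apply hz
        ext1
        · exact Fin.ext (by simp [h2])
        · exact h1.symm
      · exact absurd h3.1 h
      · rfl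
      · rfl

/-- the shifted vector -/
def sh (T : ℕ) (g : ℂ) (a : ℕ) (v : HId T → ℂ) : HId T → ℂ := fun x =>
  if a ≤ (x.1 : ℕ) then v (⟨(x.1 : ℕ) - a, by omega⟩, x.2)
  else g * v (⟨(T + 1 + (x.1 : ℕ) - a) ⊓ T, by omega⟩, x.2)

lemma core_pow_mulVec (g : ℂ) (v : HId T → ℂ) (a : ℕ) (ha : a ≤ T) :
    (core T g ^ a) *ᵥ v = sh T g a v := by
  induction a with
  | zero =>
    ext x
    simp [sh]
  | succ a ih =>
    rw [pow_succ', ← Matrix.mulVec_mulVec, ih (by omega)]
    ext x
    rw [core_mulVec]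
    unfold sh
    simp only [Fin.val_last]
    have hx := x.1.2
    split_ifs with h1 h2 h3 h4 h5 h6 h7 h8
    all_goals first | omega | skip
    · congr 3
      ext
      simp only
      omega
    · congr 2
      ext
      simp only
      omega
    · congr 3
      ext
      simp only
      omega

/-- the start columns -/
def hv (L : Matrix (HId T) (HId T) ℂ) (j : Fin T) : HId T → ℂ := fun x => L x (st T j)

/-- index type of the vectors of the nonadaptive view -/
abbrev KA (T : ℕ) := Fin (T + 1) × Fin T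

/-- matrix with columns `core^a h_j` -/
def UU (g : ℂ) (L : Matrix (HId T) (HId T) ℂ) : Matrix (HId T) (KA T) ℂ :=
  Matrix.of fun x p => sh T g (p.1 : ℕ) (hv L p.2) x

/-- the last block of rows -/
def PI (T : ℕ) : Matrix (KA T) (HId T) ℂ := Matrix.of fun r x => if x = (Fin.last T, r) then 1 else 0

/-- index map of the matrix `HH` -/
def sg (T : ℕ) (r p : KA T) : HId T × HId T := ((Fin.rev p.1, r), st T p.2)

lemma sg_inj : Inj (sg T) := by
  rintro ⟨a, b⟩ ⟨c, d⟩ ⟨a', b'⟩ ⟨c', d'⟩ h
  simp only [sg, st, Prod.mk.injEq, Fin.rev_inj] at h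
  simp only [Prod.mk.injEq]
  tauto

/-- index map of the whole matrix -/
def sf (T : ℕ) (i j : HId T) : HId T × HId T := (i, j)

lemma sf_inj : Inj (sf T) := by
  intro a b a' b' h
  simp only [sf, Prod.mk.injEq] at h
  exact h

/-- vectors -/
abbrev VV (T : ℕ) := HId T × HId T → ℂ

lemma PI_mul (M : Matrix (HId T) (KA T) ℂ) (r p : KA T) : (PI T * M) r p = M (Fin.last T, r) p := by
  rw [Matrix.mul_apply, Finset.sum_eq_single (Fin.last T, r)]
  · simp [PI]
  · intro b _ hb
    simp [PI, hb]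
  · intro h; exact absurd (Finset.mem_univ _) h

lemma PI_mul_UU (g : ℂ) (x : VV T) :
    PI T * UU g (rd (sf T) x) = rd (sg T) x := by
  ext r p
  rw [PI_mul, rd_apply]
  have hp := p.1.2
  simp only [UU, Matrix.of_apply, sh, Fin.val_last, hv, rd_apply, sf, sg]
  rw [if_pos (by omega)]
  congr 3
  ext
  simp only [Fin.val_rev]
  omega

lemma NV_cj (g : ℂ) (L : Matrix (HId T) (HId T) ℂ) (hL : L.det ≠ 0) (a : Fin (T + 1)) (j : Fin T) :
    NV (st T) (cj g L) a j = L⁻¹ *ᵥ (fun x => UU g L x (a, j)) := by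
  have hu : IsUnit L.det := isUnit_iff_ne_zero.mpr hL
  unfold NV cj
  have h1 : ∀ n : ℕ, (L⁻¹ * core T g * L) ^ n = L⁻¹ * core T g ^ n * L := by
    intro n
    induction n with
    | zero => simp [Matrix.nonsing_inv_mul L hu]
    | succ n ih =>
      rw [pow_succ, ih, pow_succ]
      calc L⁻¹ * core T g ^ n * L * (L⁻¹ * core T g * L)
          = L⁻¹ * core T g ^ n * (L * L⁻¹) * core T g * L := by simp only [Matrix.mul_assoc]
        _ = L⁻¹ * (core T g ^ n * core T g) * L := by
          rw [Matrix.mul_nonsing_inv L hu]; simp only [Matrix.mul_assoc, Matrix.one_mul]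
  rw [h1, ← Matrix.mulVec_mulVec, ← Matrix.mulVec_mulVec]
  congr 1
  have h2 : L *ᵥ (Pi.single (st T j) 1) = hv L j := by
    ext x
    simp [hv, Matrix.mulVec_single_one]
  rw [h2, core_pow_mulVec _ _ _ (by omega)]
  rfl

lemma generic_of (g : ℂ) (x : VV T) (h1 : (rd (sf T) x).det ≠ 0) (h2 : (rd (sg T) x).det ≠ 0) :
    Generic (st T) (cj g (rd (sf T) x)) := by
  unfold Generic
  have hu : IsUnit (rd (sf T) x).det := isUnit_iff_ne_zero.mpr h1
  apply LinearIndependent.of_comp ((PI T * rd (sf T) x).mulVecLin)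
  have h3 : (fun p : KA T => NV (st T) (cj g (rd (sf T) x)) p.1 p.2)
      = fun p => (rd (sf T) x)⁻¹ *ᵥ (fun y => UU g (rd (sf T) x) y p) := by
    ext1 p
    exact NV_cj g _ h1 p.1 p.2
  rw [h3]
  have h4 : (⇑(PI T * rd (sf T) x).mulVecLin ∘ fun p : KA T =>
      (rd (sf T) x)⁻¹ *ᵥ (fun y => UU g (rd (sf T) x) y p)) = (rd (sg T) x).col := by
    ext p r
    simp only [Function.comp, Matrix.mulVecLin_apply, Matrix.mulVec_mulVec]
    rw [Matrix.mul_assoc, Matrix.mul_nonsing_inv _ hu, Matrix.mul_one, ← PI_mul_UU g x]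
    rfl
  rw [h4]
  exact Matrix.linearIndependent_cols_of_det_ne_zero h2

/-- the perturbation -/
def EE (α β : ℂ) (x : VV T) : Matrix (HId T) (HId T) ℂ :=
  (UU α (rd (sf T) x) - UU β (rd (sf T) x)) * (rd (sg T) x)⁻¹ * PI T

/-- agreement on the start columns -/
def Ag (x y : VV T) : Prop := ∀ (i : HId T) (j : Fin T), x (i, st T j) = y (i, st T j)

lemma UU_congr (g : ℂ) {x y : VV T} (h : Ag x y) : UU g (rd (sf T) x) = UU g (rd (sf T) y) := by
  ext u p
  simp only [UU, Matrix.of_apply, sh, hv, rd_apply, sf]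
  rw [h, h]

lemma rd_sg_congr {x y : VV T} (h : Ag x y) : rd (sg T) x = rd (sg T) y := by
  ext r p
  simp only [rd_apply, sg]
  rw [h]

lemma EE_congr (α β : ℂ) {x y : VV T} (h : Ag x y) : EE α β x = EE α β y := by
  unfold EE
  rw [UU_congr α h, UU_congr β h, rd_sg_congr h]

lemma S_mul_UU (α β : ℂ) (x : VV T) (h2 : (rd (sg T) x).det ≠ 0) :
    (1 + EE α β x) * UU β (rd (sf T) x) = UU α (rd (sf T) x) := by
  have hu : IsUnit (rd (sg T) x).det := isUnit_iff_ne_zero.mpr h2
  unfold EE
  rw [Matrix.add_mul, Matrix.one_mul, Matrix.mul_assoc, PI_mul_UU, Matrix.mul_assoc,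
    Matrix.nonsing_inv_mul _ hu, Matrix.mul_one, add_sub_cancel]

lemma S_mul_start (hT : 0 < T + 1) (α β : ℂ) (x : VV T) (h2 : (rd (sg T) x).det ≠ 0) (j : Fin T) (i : HId T) :
    ((1 + EE α β x) * rd (sf T) x) i (st T j) = x (i, st T j) := by
  have h := congrFun (congrFun (S_mul_UU α β x h2) i) (⟨0, hT⟩, j)
  have h3 : ∀ (g : ℂ) (y : HId T), UU g (rd (sf T) x) y (⟨0, hT⟩, j) = x (y, st T j) := by
    intro g y
    simp [UU, sh, hv, sf]
  rw [h3, Matrix.mul_apply] at h
  simp_rw [h3] at h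
  rw [Matrix.mul_apply]
  exact h

/-- the main identity: the view of the `α`-matrix after the change of variables is the view of the
`β`-matrix -/
lemma NV_S (α β : ℂ) (x : VV T) (h2 : (rd (sg T) x).det ≠ 0)
    (hS : (1 + EE α β x).det ≠ 0) (z : VV T) (hz : rd (sf T) z = (1 + EE α β x) * rd (sf T) x)
    (hd : (rd (sf T) x).det ≠ 0) :
    NV (st T) (cj α (rd (sf T) z)) = NV (st T) (cj β (rd (sf T) x)) := by
  have hag : Ag x z := by
    intro i j
    have h := S_mul_start (Nat.succ_pos T) α β x h2 j i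
    rw [← hz] at h
    exact h.symm
  have hdz : (rd (sf T) z).det ≠ 0 := by
    rw [hz, Matrix.det_mul]
    exact mul_ne_zero hS hd
  have hu : IsUnit (1 + EE α β x).det := isUnit_iff_ne_zero.mpr hS
  ext1 a
  ext1 j
  rw [NV_cj _ _ hdz, NV_cj _ _ hd, ← UU_congr α hag, hz, Matrix.mul_inv_rev, ← Matrix.mulVec_mulVec]
  congr 1
  have h4 : (fun u => UU α (rd (sf T) x) u (a, j))
      = (1 + EE α β x) *ᵥ (fun u => UU β (rd (sf T) x) u (a, j)) := by
    rw [← S_mul_UU α β x h2]
    rfl
  rw [h4, Matrix.mulVec_mulVec, Matrix.nonsing_inv_mul _ hu, Matrix.one_mulVec]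

end

end Pool.Agent.Helper561.Matvec
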