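import Mathlib
import Pool.Agent.Helper561.Matvec.Alg

/-!
# Comparison of the two views (for MP_4289a5_an, piece I)
-/

set_option autoImplicit false
set_option linter.unusedSectionVars false

namespace Pool.Agent.Helper561.Matvec

open MeasureTheory Set Matrix
open Pool.Agent.Helper634.Matvec
open scoped ENNReal

noncomputable section

/-- abstract comparison for a near-identity linear change of variables -/
lemma compare_abs {ι : Type*} [Fintype ι] [DecidableEq ι] (Φ : (ι → ℂ) →ₗ[ℝ] (ι → ℂ)) {ε B : ℝ}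
    (hε : 0 ≤ ε) (hε2 : ε ≤ 1 / 2) (hB : 0 ≤ B)
    (hΦ : ∀ y, ‖Φ y - y‖ ≤ ε * ‖y‖)
    (hC : (1 + ε) ^ (2 * Fintype.card ι) * Real.exp ((Fintype.card ι : ℝ) * (6 * ε * B ^ 2)) ≤ 11 / 10)
    (f g : (ι → ℂ) → ℝ≥0∞) (hf : Measurable f) (hg : Measurable g)
    (hf0 : ∀ z, f z ≠ 0 → ∀ k, ‖z k‖ ≤ B) (hfg : ∀ y, f (Φ y) ≤ g y) :
    ∫⁻ z, f z ∂(gau ι) ≤ (11 / 10) * ∫⁻ z, g z ∂(gau ι) := by
  have hdet : LinearMap.det Φ ≠ 0 := by
    intro h0
    have h1 := LinearMap.bot_lt_ker_of_det_eq_zero h0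
    obtain ⟨v, hv, hv0⟩ := Submodule.exists_mem_ne_zero_of_ne_bot (bot_lt_iff_ne_bot.mp h1)
    rw [LinearMap.mem_ker] at hv
    have h2 := hΦ v
    rw [hv, zero_sub, norm_neg] at h2
    have h3 : 0 < ‖v‖ := norm_pos_iff.mpr hv0
    nlinarith
  have hdl : |LinearMap.det Φ| ≤ (1 + ε) ^ (2 * Fintype.card ι) := by
    apply abs_det_le Φ (by linarith)
    intro x
    calc ‖Φ x‖ = ‖(Φ x - x) + x‖ := by rw [sub_add_cancel]
      _ ≤ ‖Φ x - x‖ + ‖x‖ := norm_add_le _ _
      _ ≤ ε * ‖x‖ + ‖x‖ := by gcongr; exact hΦ x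
      _ = (1 + ε) * ‖x‖ := by ring
  have hc : Measurable Φ := (LinearMap.continuous_of_finiteDimensional Φ).measurable
  set K : ℝ := Real.exp ((Fintype.card ι : ℝ) * (6 * ε * B ^ 2)) with hK
  have hK0 : 0 < K := Real.exp_pos _
  have hpt : ∀ y, dens (Φ y) * f (Φ y) ≤ ENNReal.ofReal K * (dens y * g y) := by
    intro y
    by_cases h0 : f (Φ y) = 0
    · rw [h0, mul_zero]; exact zero_le
    · have h1 := hf0 _ h0
      have hz : ‖Φ y‖ ≤ B := (pi_norm_le_iff_of_nonneg hB).mpr h1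
      have hy : ‖y‖ ≤ 2 * B := by
        have h2 : ‖y‖ ≤ ‖Φ y‖ + ε * ‖y‖ := by
          calc ‖y‖ = ‖Φ y - (Φ y - y)‖ := by rw [sub_sub_cancel]
            _ ≤ ‖Φ y‖ + ‖Φ y - y‖ := norm_sub_le _ _
            _ ≤ ‖Φ y‖ + ε * ‖y‖ := by gcongr; exact hΦ y
        nlinarith [norm_nonneg y]
      have hns : nsq y - nsq (Φ y) ≤ (Fintype.card ι : ℝ) * (6 * ε * B ^ 2) := by
        unfold nsq
        rw [← Finset.sum_sub_distrib]
        calc ∑ k, (‖y k‖ ^ 2 - ‖Φ y k‖ ^ 2) ≤ ∑ _k : ι, 6 * ε * B ^ 2 := by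
              apply Finset.sum_le_sum
              intro k _
              have h3 : ‖y k‖ - ‖Φ y k‖ ≤ ε * (2 * B) := by
                calc ‖y k‖ - ‖Φ y k‖ ≤ ‖y k - Φ y k‖ := norm_sub_norm_le _ _
                  _ = ‖(Φ y - y) k‖ := by rw [norm_sub_rev]; rfl
                  _ ≤ ‖Φ y - y‖ := norm_le_pi_norm _ k
                  _ ≤ ε * ‖y‖ := hΦ y
                  _ ≤ ε * (2 * B) := by gcongr
              have h4 : ‖y k‖ ≤ 2 * B := (norm_le_pi_norm y k).trans hy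
              have h5 : ‖Φ y k‖ ≤ B := h1 k
              have h6 := norm_nonneg (y k)
              have h7 := norm_nonneg (Φ y k)
              calc ‖y k‖ ^ 2 - ‖Φ y k‖ ^ 2 = (‖y k‖ - ‖Φ y k‖) * (‖y k‖ + ‖Φ y k‖) := by ring
                _ ≤ (ε * (2 * B)) * (‖y k‖ + ‖Φ y k‖) := by gcongr
                _ ≤ (ε * (2 * B)) * (2 * B + B) := by gcongr
                _ = 6 * ε * B ^ 2 := by ring
          _ = (Fintype.card ι : ℝ) * (6 * ε * B ^ 2) := by
              rw [Finset.sum_const, Finset.card_univ, nsmul_eq_mul]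
      have hd : dens (Φ y) ≤ ENNReal.ofReal K * dens y := by
        unfold dens
        rw [← ENNReal.ofReal_mul hK0.le]
        apply ENNReal.ofReal_le_ofReal
        rw [← mul_div_assoc, hK, ← Real.exp_add]
        gcongr
        linarith
      calc dens (Φ y) * f (Φ y) ≤ (ENNReal.ofReal K * dens y) * g y := mul_le_mul' hd (hfg y)
        _ = ENNReal.ofReal K * (dens y * g y) := by ring
  rw [lintegral_gau f hf, lintegral_gau g hg,
    lintegral_comp_linear Φ hdet (fun z => dens z * f z) (dens_meas.mul hf)]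
  calc ENNReal.ofReal |LinearMap.det Φ| * ∫⁻ y, dens (Φ y) * f (Φ y)
      ≤ ENNReal.ofReal ((1 + ε) ^ (2 * Fintype.card ι))
          * ∫⁻ y, ENNReal.ofReal K * (dens y * g y) := by
        apply mul_le_mul' (ENNReal.ofReal_le_ofReal hdl)
        exact lintegral_mono hpt
    _ = ENNReal.ofReal ((1 + ε) ^ (2 * Fintype.card ι) * K) * ∫⁻ y, dens y * g y := by
        have hh : ∫⁻ y, ENNReal.ofReal K * (dens y * g y) = ENNReal.ofReal K * ∫⁻ y, dens y * g y :=
          lintegral_const_mul (ENNReal.ofReal K)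
            (show Measurable (fun y => dens y * g y) from dens_meas.mul hg)
        rw [hh, ← mul_assoc, ← ENNReal.ofReal_mul (by positivity)]
    _ ≤ (11 / 10) * ∫⁻ y, dens y * g y := by
        apply mul_le_mul_left
        calc ENNReal.ofReal ((1 + ε) ^ (2 * Fintype.card ι) * K) ≤ ENNReal.ofReal (11 / 10) :=
              ENNReal.ofReal_le_ofReal hC
          _ = 11 / 10 := by
              rw [ENNReal.ofReal_div_of_pos (by norm_num)]
              norm_num

variable {T : ℕ}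

/-- number of coordinates -/
def nn (T : ℕ) : ℝ := (Fintype.card (HId T) : ℝ)

lemma card_KA_le (T : ℕ) : (Fintype.card (KA T) : ℝ) ≤ nn T := by
  unfold nn
  norm_cast
  simp only [Fintype.card_prod, Fintype.card_fin]
  nlinarith [Nat.zero_le T, Nat.zero_le ((T + 1) * T)]

lemma UU_sub_bound {α β : ℂ} {A B : ℝ} (hB : 0 ≤ B) (hA : ‖α - β‖ ≤ A) (x : VV T)
    (hx : ∀ i j, ‖x (i, st T j)‖ ≤ B) (i : HId T) (p : KA T) :
    ‖(UU α (rd (sf T) x) - UU β (rd (sf T) x)) i p‖ ≤ A * B := by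
  have hA0 : 0 ≤ A := (norm_nonneg _).trans hA
  rw [Matrix.sub_apply]
  simp only [UU, Matrix.of_apply, sh]
  split_ifs with h
  · rw [sub_self, norm_zero]; positivity
  · rw [← sub_mul, norm_mul]
    apply mul_le_mul hA _ (norm_nonneg _) hA0
    simp only [hv, rd_apply, sf]
    exact hx _ _

lemma EE_bound {α β : ℂ} {A B : ℝ} (hB : 0 ≤ B) (hA : ‖α - β‖ ≤ A) (x : VV T)
    (hx : ∀ i j, ‖x (i, st T j)‖ ≤ B) (hinv : ∀ p r, ‖(rd (sg T) x)⁻¹ p r‖ ≤ B) (i y : HId T) :
    ‖EE α β x i y‖ ≤ nn T * (A * B * B) := by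
  have hA0 : 0 ≤ A := (norm_nonneg _).trans hA
  unfold EE
  rw [Matrix.mul_apply]
  have h1 : ∀ r : KA T, ((UU α (rd (sf T) x) - UU β (rd (sf T) x)) * (rd (sg T) x)⁻¹) i r * PI T r y
      = if y = (Fin.last T, r) then
        ((UU α (rd (sf T) x) - UU β (rd (sf T) x)) * (rd (sg T) x)⁻¹) i r else 0 := by
    intro r
    simp only [PI, Matrix.of_apply, mul_ite, mul_one, mul_zero]
  simp_rw [h1]
  have h2 : ∀ r : KA T, ‖((UU α (rd (sf T) x) - UU β (rd (sf T) x)) * (rd (sg T) x)⁻¹) i r‖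
      ≤ nn T * (A * B * B) := by
    intro r
    rw [Matrix.mul_apply]
    calc ‖∑ p, (UU α (rd (sf T) x) - UU β (rd (sf T) x)) i p * (rd (sg T) x)⁻¹ p r‖
        ≤ ∑ p, ‖(UU α (rd (sf T) x) - UU β (rd (sf T) x)) i p * (rd (sg T) x)⁻¹ p r‖ :=
          norm_sum_le _ _
      _ ≤ ∑ _p : KA T, A * B * B := by
          apply Finset.sum_le_sum
          intro p _
          rw [norm_mul]
          exact mul_le_mul (UU_sub_bound hB hA x hx i p) (hinv p r) (norm_nonneg _) (by positivity)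
      _ = (Fintype.card (KA T) : ℝ) * (A * B * B) := by
          rw [Finset.sum_const, Finset.card_univ, nsmul_eq_mul]
      _ ≤ nn T * (A * B * B) := by
          gcongr
          exact card_KA_le T
  have hnn : 0 ≤ nn T * (A * B * B) := by unfold nn; positivity
  by_cases hy : y.1 = Fin.last T
  · rw [Finset.sum_eq_single y.2]
    · split_ifs
      · exact h2 _
      · rw [norm_zero]; exact hnn
    · intro r _ hr
      apply if_neg
      intro h
      apply hr
      rw [h]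
    · intro h; exact absurd (Finset.mem_univ _) h
  · rw [Finset.sum_eq_zero]
    · rw [norm_zero]; exact hnn
    · intro r _
      apply if_neg
      intro h
      apply hy
      rw [h]

/-- the non-start coordinates -/
def ns (T : ℕ) : Finset (HId T × HId T) := Finset.univ.filter (fun p => ∀ j, p.2 ≠ st T j)

lemma mem_ns {p : HId T × HId T} : p ∈ ns T ↔ ∀ j, p.2 ≠ st T j := by simp [ns]

lemma mem_ns' (p : ns T) (i : HId T) : (i, p.1.2) ∈ ns T := mem_ns.mpr fun j => mem_ns.mp p.2 j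

lemma upd_mem (x : VV T) (y : ns T → ℂ) (p : HId T × HId T) (h : p ∈ ns T) :
    Function.updateFinset x (ns T) y p = y ⟨p, h⟩ := by
  rw [Function.updateFinset, dif_pos h]

lemma ag_update (x : VV T) (y : ns T → ℂ) : Ag x (Function.updateFinset x (ns T) y) := by
  intro i j
  rw [Function.updateFinset, dif_neg]
  rw [mem_ns]
  push Not
  exact ⟨j, rfl⟩

/-- the change of variables -/
def Psi (E : Matrix (HId T) (HId T) ℂ) : (ns T → ℂ) →ₗ[ℝ] (ns T → ℂ) where
  toFun y := fun p => ∑ i, E p.1.1 i * y ⟨(i, p.1.2), mem_ns' p i⟩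
  map_add' y z := by
    ext p
    simp [mul_add, Finset.sum_add_distrib]
  map_smul' c y := by
    ext p
    simp only [Pi.smul_apply, RingHom.id_apply, Finset.smul_sum]
    apply Finset.sum_congr rfl
    intro i _
    rw [mul_smul_comm]

lemma Psi_norm (E : Matrix (HId T) (HId T) ℂ) {e : ℝ} (he : ∀ i j, ‖E i j‖ ≤ e) (he0 : 0 ≤ e)
    (y : ns T → ℂ) : ‖Psi E y‖ ≤ (nn T * e) * ‖y‖ := by
  have hn : 0 ≤ nn T := by unfold nn; positivity
  rw [pi_norm_le_iff_of_nonneg (by positivity)]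
  intro p
  show ‖∑ i, E p.1.1 i * y ⟨(i, p.1.2), mem_ns' p i⟩‖ ≤ _
  calc ‖∑ i, E p.1.1 i * y ⟨(i, p.1.2), mem_ns' p i⟩‖
      ≤ ∑ i, ‖E p.1.1 i * y ⟨(i, p.1.2), mem_ns' p i⟩‖ := norm_sum_le _ _
    _ ≤ ∑ _i : HId T, e * ‖y‖ := by
        apply Finset.sum_le_sum
        intro i _
        rw [norm_mul]
        exact mul_le_mul (he _ _) (norm_le_pi_norm y _) (norm_nonneg _) he0
    _ = (nn T * e) * ‖y‖ := by
        rw [Finset.sum_const, Finset.card_univ, nsmul_eq_mul]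
        unfold nn
        ring

lemma mat_norm (E : Matrix (HId T) (HId T) ℂ) {e : ℝ} (he : ∀ i j, ‖E i j‖ ≤ e) (he0 : 0 ≤ e)
    (y : HId T → ℂ) : ‖E *ᵥ y‖ ≤ (nn T * e) * ‖y‖ := by
  have hn : 0 ≤ nn T := by unfold nn; positivity
  rw [pi_norm_le_iff_of_nonneg (by positivity)]
  intro p
  rw [Matrix.mulVec, dotProduct]
  calc ‖∑ i, E p i * y i‖
      ≤ ∑ i, ‖E p i * y i‖ := norm_sum_le _ _
    _ ≤ ∑ _i : HId T, e * ‖y‖ := by
        apply Finset.sum_le_sum
        intro i _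
        rw [norm_mul]
        exact mul_le_mul (he _ _) (norm_le_pi_norm y _) (norm_nonneg _) he0
    _ = (nn T * e) * ‖y‖ := by
        rw [Finset.sum_const, Finset.card_univ, nsmul_eq_mul]
        unfold nn
        ring

lemma det_one_add_ne_zero (E : Matrix (HId T) (HId T) ℂ) {e : ℝ} (he : ∀ i j, ‖E i j‖ ≤ e)
    (he0 : 0 ≤ e) (hsmall : nn T * e ≤ 1 / 2) : (1 + E).det ≠ 0 := by
  intro h0
  obtain ⟨v, hv0, hv⟩ := Matrix.exists_mulVec_eq_zero_iff.mpr h0
  rw [Matrix.add_mulVec, Matrix.one_mulVec] at hv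
  have h1 : ‖v‖ ≤ (nn T * e) * ‖v‖ := by
    calc ‖v‖ = ‖E *ᵥ v‖ := by
          rw [eq_neg_of_add_eq_zero_left hv, norm_neg]
          rw [← eq_neg_of_add_eq_zero_left hv]
      _ ≤ _ := mat_norm E he he0 v
  have h3 : 0 < ‖v‖ := norm_pos_iff.mpr hv0
  nlinarith

lemma update_Phi (α β : ℂ) (x : VV T) (h2 : (rd (sg T) x).det ≠ 0) (y : ns T → ℂ) :
    rd (sf T) (Function.updateFinset x (ns T) (y + Psi (EE α β x) y))
      = (1 + EE α β (Function.updateFinset x (ns T) y)) * rd (sf T) (Function.updateFinset x (ns T) y) := by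
  have hag := ag_update x y
  have h2' : (rd (sg T) (Function.updateFinset x (ns T) y)).det ≠ 0 := by
    rw [← rd_sg_congr hag]; exact h2
  ext i c
  by_cases hc : ∀ j, c ≠ st T j
  · have hmem : ∀ k : HId T, (k, c) ∈ ns T := fun k => mem_ns.mpr hc
    rw [← EE_congr α β hag, rd_apply, Matrix.add_mul, Matrix.one_mul, Matrix.add_apply, rd_apply,
      Matrix.mul_apply]
    simp only [rd_apply]
    rw [upd_mem x _ (sf T i c) (hmem i), upd_mem x _ (sf T i c) (hmem i), Pi.add_apply]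
    congr 1
    show ∑ k, EE α β x i k * y ⟨(k, c), _⟩ = _
    apply Finset.sum_congr rfl
    intro k _
    rw [upd_mem x _ (sf T k c) (hmem k)]
    rfl
  · push Not at hc
    obtain ⟨j, rfl⟩ := hc
    rw [S_mul_start (Nat.succ_pos T) α β _ h2' j i, rd_apply]
    simp only [sf]
    rw [← ag_update x _ i j, ← ag_update x _ i j]

end

end Pool.Agent.Helper561.Matvec
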