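import Mathlib
import Pool.Agent.Helper561.Matvec.Comp

/-!
# Piece I of MP_4289a5_an: the Gaussian piece
-/

set_option autoImplicit false
set_option linter.unusedSectionVars false

namespace Pool.Agent.Helper561.Matvec

open MeasureTheory Set Matrix
open Pool.Agent.Helper634.Matvec
open scoped ENNReal

noncomputable section

/-! ### bad sets -/

section bad

variable {κ m : Type*} [Fintype κ] [DecidableEq κ] [Fintype m] [DecidableEq m]

lemma gau_coord (k : κ) {R : ℝ} (hR : 0 < R) :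
    gau κ {x | R < ‖x k‖} ≤ ENNReal.ofReal (1 / R ^ 2) := by
  have h : MeasurePreserving (Function.eval k) (gau κ) rho :=
    measurePreserving_eval (fun _ : κ => rho) k
  have hms : MeasurableSet {z : ℂ | R < ‖z‖} := measurableSet_lt measurable_const measurable_norm
  have h2 := h.measure_preimage hms.nullMeasurableSet
  calc gau κ {x | R < ‖x k‖} = gau κ (Function.eval k ⁻¹' {z : ℂ | R < ‖z‖}) := rfl
    _ = rho {z | R < ‖z‖} := h2
    _ ≤ _ := rho_tail hR

lemma gau_bad {σ : m → m → κ} (hσ : Inj σ) {B : ℝ} (hB : 0 < B) :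
    gau κ {x | ¬ ((∀ k, ‖x k‖ ≤ B) ∧ (rd σ x).det ≠ 0 ∧ ∀ p r, ‖(rd σ x)⁻¹ p r‖ ≤ B)}
      ≤ ENNReal.ofReal (((Fintype.card κ : ℝ) + (Fintype.card m : ℝ) ^ 2) / B ^ 2) := by
  have hsub : {x : κ → ℂ | ¬ ((∀ k, ‖x k‖ ≤ B) ∧ (rd σ x).det ≠ 0 ∧ ∀ p r, ‖(rd σ x)⁻¹ p r‖ ≤ B)}
      ⊆ ((⋃ k : κ, {x : κ → ℂ | B < ‖x k‖}) ∪
        ⋃ q : m × m, {x : κ → ℂ | (rd σ x).det ≠ 0 ∧ B < ‖(rd σ x)⁻¹ q.1 q.2‖})
        ∪ {x : κ → ℂ | ¬ (rd σ x).det ≠ 0} := by
    intro x hx
    simp only [mem_ofPred_eq] at hx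
    by_cases h1 : ∀ k, ‖x k‖ ≤ B
    · by_cases h2 : (rd σ x).det ≠ 0
      · left; right
        have h3 : ¬ ∀ p r, ‖(rd σ x)⁻¹ p r‖ ≤ B := fun h => hx ⟨h1, h2, h⟩
        push Not at h3
        obtain ⟨p, r, h3⟩ := h3
        exact mem_iUnion.mpr ⟨(p, r), h2, h3⟩
      · right
        exact h2
    · left; left
      push Not at h1
      obtain ⟨k, hk⟩ := h1
      exact mem_iUnion.mpr ⟨k, hk⟩
  calc _ ≤ gau κ (((⋃ k : κ, {x : κ → ℂ | B < ‖x k‖}) ∪
        ⋃ q : m × m, {x : κ → ℂ | (rd σ x).det ≠ 0 ∧ B < ‖(rd σ x)⁻¹ q.1 q.2‖})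
        ∪ {x : κ → ℂ | ¬ (rd σ x).det ≠ 0}) := measure_mono hsub
    _ ≤ (gau κ (⋃ k : κ, {x : κ → ℂ | B < ‖x k‖}) +
        gau κ (⋃ q : m × m, {x : κ → ℂ | (rd σ x).det ≠ 0 ∧ B < ‖(rd σ x)⁻¹ q.1 q.2‖}))
        + gau κ {x : κ → ℂ | ¬ (rd σ x).det ≠ 0} :=
        (measure_union_le _ _).trans (add_le_add (measure_union_le _ _) le_rfl)
    _ ≤ ((∑ _k : κ, ENNReal.ofReal (1 / B ^ 2)) + ∑ _q : m × m, ENNReal.ofReal (1 / B ^ 2)) + 0 := by
        have hd := det_ne_zero_ae (κ := κ) hσ
        rw [ae_iff] at hd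
        rw [hd]
        gcongr
        · refine (measure_iUnion_le _).trans ?_
          rw [tsum_fintype]
          exact Finset.sum_le_sum fun k _ => gau_coord k hB
        · refine (measure_iUnion_le _).trans ?_
          rw [tsum_fintype]
          exact Finset.sum_le_sum fun q _ => anti hσ q.2 q.1 hB
    _ = ENNReal.ofReal (((Fintype.card κ : ℝ) + (Fintype.card m : ℝ) ^ 2) / B ^ 2) := by
        rw [add_zero, Finset.sum_const, Finset.sum_const, Finset.card_univ, Finset.card_univ,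
          nsmul_eq_mul, nsmul_eq_mul, ← add_mul, Fintype.card_prod]
        have : ((Fintype.card κ : ℝ≥0∞) + ((Fintype.card m * Fintype.card m : ℕ) : ℝ≥0∞))
            = ENNReal.ofReal ((Fintype.card κ : ℝ) + (Fintype.card m : ℝ) ^ 2) := by
          rw [ENNReal.ofReal_add (by positivity) (by positivity), ENNReal.ofReal_natCast, sq,
            ← Nat.cast_mul, ENNReal.ofReal_natCast]
        rw [this, ← ENNReal.ofReal_mul (by positivity)]
        congr 1
        ring

end bad

variable {T : ℕ}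

/-- the good event for the comparison -/
def Bd (T : ℕ) : Set (VV T) := {x | ((∀ k, ‖x k‖ ≤ nn T ^ 2) ∧ (rd (sg T) x).det ≠ 0 ∧
  ∀ p r, ‖(rd (sg T) x)⁻¹ p r‖ ≤ nn T ^ 2) ∧ (rd (sf T) x).det ≠ 0}

lemma det_meas_set {κ m : Type*} [Fintype κ] [DecidableEq κ] [Fintype m] [DecidableEq m]
    (σ : m → m → κ) : MeasurableSet {x : κ → ℂ | (rd σ x).det ≠ 0} :=
  (isOpen_ne_fun (det_rd_cont σ) continuous_const).measurableSet

lemma Bd_meas : MeasurableSet (Bd T) := by
  have h1 : MeasurableSet {x : VV T | ∀ k, ‖x k‖ ≤ nn T ^ 2} := by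
    have : {x : VV T | ∀ k, ‖x k‖ ≤ nn T ^ 2} = ⋂ k, {x : VV T | ‖x k‖ ≤ nn T ^ 2} := by
      ext x; simp
    rw [this]
    exact MeasurableSet.iInter fun k => measurableSet_le (measurable_pi_apply k).norm measurable_const
  have h2 : MeasurableSet {x : VV T | ∀ p r, ‖(rd (sg T) x)⁻¹ p r‖ ≤ nn T ^ 2} := by
    have : {x : VV T | ∀ p r, ‖(rd (sg T) x)⁻¹ p r‖ ≤ nn T ^ 2}
        = ⋂ p, ⋂ r, {x : VV T | ‖(rd (sg T) x)⁻¹ p r‖ ≤ nn T ^ 2} := by
      ext x; simp
    rw [this]
    exact MeasurableSet.iInter fun p => MeasurableSet.iInter fun r =>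
      measurableSet_le (inv_rd_entry_meas _ p r).norm measurable_const
  have h3 : Bd T = ({x : VV T | ∀ k, ‖x k‖ ≤ nn T ^ 2} ∩ ({x : VV T | (rd (sg T) x).det ≠ 0} ∩
      {x : VV T | ∀ p r, ‖(rd (sg T) x)⁻¹ p r‖ ≤ nn T ^ 2})) ∩ {x : VV T | (rd (sf T) x).det ≠ 0} := rfl
  rw [h3]
  exact (h1.inter ((det_meas_set _).inter h2)).inter (det_meas_set _)

/-- the view as a function of the entries -/
def vw (g : ℂ) (x : VV T) : Fin (T + 1) → Fin T → (HId T → ℂ) :=
  NV (st T) (cj g (rd (sf T) x))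

lemma vw_meas (g : ℂ) : Measurable (vw g : VV T → _) := by
  have h0 : ∀ i j, Measurable fun x : VV T => (cj g (rd (sf T) x)) i j := by
    intro i j
    unfold cj
    simp only [Matrix.mul_apply]
    refine Finset.measurable_sum _ fun k _ => Measurable.mul ?_ ?_
    · refine Finset.measurable_sum _ fun l _ => Measurable.mul ?_ measurable_const
      exact inv_rd_entry_meas _ i l
    · simp only [rd_apply]
      exact measurable_pi_apply _
  have h1 : ∀ (a : ℕ) i j, Measurable fun x : VV T => ((cj g (rd (sf T) x)) ^ a) i j := by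
    intro a
    induction a with
    | zero => intro i j; simp only [pow_zero]; exact measurable_const
    | succ a ih =>
      intro i j
      simp only [pow_succ, Matrix.mul_apply]
      exact Finset.measurable_sum _ fun k _ => (ih i k).mul (h0 k j)
  rw [measurable_pi_iff]
  intro a
  rw [measurable_pi_iff]
  intro j
  rw [measurable_pi_iff]
  intro i
  unfold vw NV
  simp only [Matrix.mulVec_single_one]
  exact h1 a i (st T j)

lemma exp_small {t : ℝ} (ht : t ≤ 1 / 20) : Real.exp t ≤ 11 / 10 := by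
  have h1 : Real.exp t ≤ Real.exp (1 / 20) := Real.exp_le_exp.mpr ht
  have h2 : (-(1 / 20) : ℝ) + 1 ≤ Real.exp (-(1 / 20)) := Real.add_one_le_exp _
  have h3 : Real.exp (1 / 20) * Real.exp (-(1 / 20)) = 1 := by
    rw [← Real.exp_add]; norm_num
  have h4 := Real.exp_pos (1 / 20)
  nlinarith

lemma nn_ge (hT : 10 ≤ T) : 1000 ≤ nn T := by
  unfold nn
  have : (1000 : ℕ) ≤ Fintype.card (HId T) := by
    simp only [Fintype.card_prod, Fintype.card_fin]
    calc 1000 ≤ 11 * (11 * 10) := by norm_num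
      _ ≤ (T + 1) * ((T + 1) * T) := by gcongr <;> omega
  exact_mod_cast this

lemma comp_point (hn : 1000 ≤ nn T) {α β : ℂ} (hA : ‖α - β‖ ≤ (1 / nn T) ^ 20)
    (W : Set (Fin (T + 1) → Fin T → (HId T → ℂ))) (hW : MeasurableSet W) (x : VV T) :
    (∫⋯∫⁻_(ns T), (fun z : VV T => (Bd T ∩ vw α ⁻¹' W).indicator (fun _ => (1 : ℝ≥0∞)) z)
        ∂(fun _ => rho)) x
      ≤ (∫⋯∫⁻_(ns T), (fun z : VV T => (11 / 10) * (vw β ⁻¹' W).indicator (fun _ => (1 : ℝ≥0∞)) z)
        ∂(fun _ => rho)) x := by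
  have hn0 : 0 < nn T := by linarith
  have hFm : MeasurableSet (Bd T ∩ vw α ⁻¹' W) := Bd_meas.inter (vw_meas α hW)
  have hGm : MeasurableSet ((vw β : VV T → _) ⁻¹' W) := vw_meas β hW
  unfold lmarginal
  rw [lintegral_const_mul]
  swap
  · exact (measurable_const.indicator hGm).comp measurable_updateFinset
  change ∫⁻ y : ns T → ℂ, (Bd T ∩ vw α ⁻¹' W).indicator (fun _ => (1 : ℝ≥0∞))
      (Function.updateFinset x (ns T) y) ∂(gau (ns T)) ≤ (11 / 10) *
      ∫⁻ y : ns T → ℂ, (vw β ⁻¹' W).indicator (fun _ => (1 : ℝ≥0∞))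
      (Function.updateFinset x (ns T) y) ∂(gau (ns T))
  by_cases hx : (∀ i j, ‖x (i, st T j)‖ ≤ nn T ^ 2) ∧ (rd (sg T) x).det ≠ 0 ∧
      ∀ p r, ‖(rd (sg T) x)⁻¹ p r‖ ≤ nn T ^ 2
  swap
  · have h0 : ∀ y : ns T → ℂ, (Bd T ∩ vw α ⁻¹' W).indicator (fun _ => (1 : ℝ≥0∞))
        (Function.updateFinset x (ns T) y) = 0 := by
      intro y
      apply Set.indicator_of_notMem
      rintro ⟨⟨⟨h1, h2, h3⟩, _⟩, _⟩
      have hag := ag_update x y
      apply hx
      refine ⟨?_, ?_, ?_⟩
      · intro i j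
        rw [hag i j]
        exact h1 _
      · rw [rd_sg_congr hag]; exact h2
      · rw [rd_sg_congr hag]; exact h3
    simp_rw [h0]
    rw [lintegral_zero]
    exact zero_le
  · obtain ⟨hx1, hx2, hx3⟩ := hx
    set e : ℝ := nn T * ((1 / nn T) ^ 20 * nn T ^ 2 * nn T ^ 2) with he
    have he0 : 0 ≤ e := by positivity
    have hE : ∀ i j, ‖EE α β x i j‖ ≤ e := fun i j =>
      EE_bound (by positivity) hA x hx1 hx3 i j
    have hee : nn T * e = (1 / nn T) ^ 14 := by
      rw [he]; field_simp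
    have hsm : (1 / nn T) ^ 14 ≤ 1 / 2 := by
      have h1 : 1 / nn T ≤ 1 / 1000 := by gcongr
      calc (1 / nn T) ^ 14 ≤ (1 / 1000) ^ 14 := by gcongr
        _ ≤ 1 / 2 := by norm_num
    have hS : (1 + EE α β x).det ≠ 0 := det_one_add_ne_zero _ hE he0 (by rw [hee]; exact hsm)
    apply compare_abs (LinearMap.id + Psi (EE α β x)) (ε := nn T * e) (B := nn T ^ 2)
    · positivity
    · rw [hee]; exact hsm
    · positivity
    · intro y
      rw [LinearMap.add_apply, LinearMap.id_apply, add_sub_cancel_left]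
      exact Psi_norm _ hE he0 y
    · rw [hee]
      have hc : (Fintype.card (ns T) : ℝ) ≤ nn T ^ 2 := by
        unfold nn
        rw [Fintype.card_coe]
        have h1 : (ns T).card ≤ Fintype.card (HId T × HId T) := Finset.card_le_univ _
        rw [Fintype.card_prod (HId T) (HId T)] at h1
        rw [sq]
        exact_mod_cast h1
      set c : ℝ := (Fintype.card (ns T) : ℝ) with hcdef
      have hc0 : 0 ≤ c := by positivity
      have h1 : (1 + (1 / nn T) ^ 14) ^ (2 * Fintype.card (ns T))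
          ≤ Real.exp (2 * c * (1 / nn T) ^ 14) := by
        calc (1 + (1 / nn T) ^ 14) ^ (2 * Fintype.card (ns T))
            ≤ (Real.exp ((1 / nn T) ^ 14)) ^ (2 * Fintype.card (ns T)) := by
              gcongr
              rw [add_comm]
              exact Real.add_one_le_exp _
          _ = Real.exp (2 * c * (1 / nn T) ^ 14) := by
              rw [← Real.exp_nat_mul]
              congr 1
              push_cast
              ring
      calc (1 + (1 / nn T) ^ 14) ^ (2 * Fintype.card (ns T)) *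
            Real.exp (c * (6 * (1 / nn T) ^ 14 * (nn T ^ 2) ^ 2))
          ≤ Real.exp (2 * c * (1 / nn T) ^ 14) *
            Real.exp (c * (6 * (1 / nn T) ^ 14 * (nn T ^ 2) ^ 2)) := by gcongr
        _ = Real.exp (2 * c * (1 / nn T) ^ 14 + c * (6 * (1 / nn T) ^ 14 * (nn T ^ 2) ^ 2)) := by
            rw [Real.exp_add]
        _ ≤ 11 / 10 := by
            apply exp_small
            calc 2 * c * (1 / nn T) ^ 14 + c * (6 * (1 / nn T) ^ 14 * (nn T ^ 2) ^ 2)
                ≤ 2 * (nn T ^ 2) * (1 / nn T) ^ 14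
                  + (nn T ^ 2) * (6 * (1 / nn T) ^ 14 * (nn T ^ 2) ^ 2) := by gcongr
              _ = 2 * (1 / nn T) ^ 12 + 6 * (1 / nn T) ^ 8 := by field_simp
              _ ≤ 2 * (1 / 1000) ^ 12 + 6 * (1 / 1000) ^ 8 := by gcongr
              _ ≤ 1 / 20 := by norm_num
    · exact (measurable_const.indicator hFm).comp measurable_updateFinset
    · exact (measurable_const.indicator hGm).comp measurable_updateFinset
    · intro z hz k
      have hmem : Function.updateFinset x (ns T) z ∈ Bd T ∩ vw α ⁻¹' W := by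
        by_contra hcon
        exact hz (Set.indicator_of_notMem hcon _)
      have h1 := hmem.1.1.1 k.1
      rw [upd_mem x z k.1 k.2] at h1
      exact h1
    · intro y
      set z := Function.updateFinset x (ns T)
        ((LinearMap.id + Psi (EE α β x) : (ns T → ℂ) →ₗ[ℝ] (ns T → ℂ)) y) with hz
      set w := Function.updateFinset x (ns T) y with hw
      by_cases hmem : z ∈ Bd T ∩ vw α ⁻¹' W
      · rw [Set.indicator_of_mem hmem]
        have hrd : rd (sf T) z = (1 + EE α β w) * rd (sf T) w := update_Phi α β x hx2 y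
        have hag := ag_update x y
        have h2' : (rd (sg T) w).det ≠ 0 := by
          rw [hw, ← rd_sg_congr hag]; exact hx2
        have hS' : (1 + EE α β w).det ≠ 0 := by
          rw [hw, ← EE_congr α β hag]; exact hS
        have hdz : (rd (sf T) z).det ≠ 0 := hmem.1.2
        have hdw : (rd (sf T) w).det ≠ 0 := by
          intro h0
          apply hdz
          rw [hrd, Matrix.det_mul, h0, mul_zero]
        have hvw : vw α z = vw β w := NV_S α β w h2' hS' z hrd hdw
        have hmw : w ∈ vw β ⁻¹' W := by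
          show vw β w ∈ W
          rw [← hvw]
          exact hmem.2
        rw [Set.indicator_of_mem hmw]
      · rw [Set.indicator_of_notMem hmem]
        exact zero_le

lemma weights (T : ℕ) : ‖(alphaW T : ℂ) - (betaW T : ℂ)‖ ≤ (1 / nn T) ^ 20 := by
  have h0 : 0 ≤ alphaW T := by unfold alphaW; positivity
  have h1 : 0 ≤ betaW T := by unfold betaW; positivity
  have h2 : betaW T ≤ alphaW T := by
    unfold betaW
    exact div_le_self h0 (one_le_pow₀ (by norm_num))
  rw [← Complex.ofReal_sub, Complex.norm_real, Real.norm_of_nonneg (by linarith)]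
  have h3 : alphaW T = (1 / nn T) ^ 20 := rfl
  linarith

lemma gau_compare (hT : 10 ≤ T) (W : Set (Fin (T + 1) → Fin T → (HId T → ℂ)))
    (hW : MeasurableSet W) :
    gau (HId T × HId T) (vw (alphaW T) ⁻¹' W) ≤
      1 / 20 + (11 / 10) * gau (HId T × HId T) (vw (betaW T) ⁻¹' W) := by
  have hn := nn_ge hT
  have hn0 : 0 < nn T := by linarith
  set F := Bd T ∩ vw (alphaW T : ℂ) ⁻¹' W with hF
  have hFm : MeasurableSet F := Bd_meas.inter (vw_meas _ hW)
  have hGm : MeasurableSet ((vw (betaW T : ℂ) : VV T → _) ⁻¹' W) := vw_meas _ hW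
  have h1 : gau (HId T × HId T) F ≤ (11 / 10) * gau (HId T × HId T) (vw (betaW T) ⁻¹' W) := by
    have h2 : gau (HId T × HId T) F = ∫⁻ z, F.indicator (fun _ => (1 : ℝ≥0∞)) z ∂(gau (HId T × HId T)) := by
      rw [lintegral_indicator hFm, setLIntegral_one]
    have h3 : (11 / 10) * gau (HId T × HId T) (vw (betaW T) ⁻¹' W)
        = ∫⁻ z, (11 / 10) * (vw (betaW T : ℂ) ⁻¹' W).indicator (fun _ => (1 : ℝ≥0∞)) z
          ∂(gau (HId T × HId T)) := by
      rw [lintegral_const_mul _ (measurable_const.indicator hGm), lintegral_indicator hGm,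
        setLIntegral_one]
    rw [h2, h3]
    unfold gau
    apply lintegral_le_of_lmarginal_le (ns T) (measurable_const.indicator hFm)
      ((measurable_const.indicator hGm).const_mul _)
    intro x
    exact comp_point hn (weights T) W hW x
  have hbad : gau (HId T × HId T) (Bd T)ᶜ ≤ 1 / 20 := by
    have hsub : (Bd T)ᶜ ⊆ {x : VV T | ¬ ((∀ k, ‖x k‖ ≤ nn T ^ 2) ∧ (rd (sg T) x).det ≠ 0 ∧
        ∀ p r, ‖(rd (sg T) x)⁻¹ p r‖ ≤ nn T ^ 2)} ∪ {x : VV T | ¬ (rd (sf T) x).det ≠ 0} := by
      intro x hx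
      by_contra hcon
      simp only [mem_union, mem_ofPred_eq, not_or, not_not] at hcon
      exact hx hcon
    have h4 := gau_bad (κ := HId T × HId T) (sg_inj (T := T)) (B := nn T ^ 2) (by positivity)
    have h5 := det_ne_zero_ae (κ := HId T × HId T) (sf_inj (T := T))
    rw [ae_iff] at h5
    calc gau (HId T × HId T) (Bd T)ᶜ ≤ _ := measure_mono hsub
      _ ≤ _ := measure_union_le _ _
      _ ≤ ENNReal.ofReal (((Fintype.card (HId T × HId T) : ℝ) + (Fintype.card (KA T) : ℝ) ^ 2)
          / (nn T ^ 2) ^ 2) + 0 := by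
          gcongr
          exact h5.le
      _ ≤ ENNReal.ofReal (1 / 20) := by
          rw [add_zero]
          apply ENNReal.ofReal_le_ofReal
          have h6 : (Fintype.card (HId T × HId T) : ℝ) = nn T ^ 2 := by
            rw [Fintype.card_prod (HId T) (HId T)]
            unfold nn
            push_cast
            ring
          have h7 := card_KA_le T
          rw [h6, div_le_div_iff₀ (by positivity) (by norm_num)]
          have h8 : (Fintype.card (KA T) : ℝ) ^ 2 ≤ nn T ^ 2 := by gcongr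
          have h9 : (1000 : ℝ) ^ 2 ≤ nn T ^ 2 := by gcongr
          nlinarith [sq_nonneg (nn T)]
      _ = 1 / 20 := by
          rw [ENNReal.ofReal_div_of_pos (by norm_num)]
          norm_num
  calc gau (HId T × HId T) (vw (alphaW T) ⁻¹' W)
      ≤ gau (HId T × HId T) ((Bd T)ᶜ ∪ F) := by
        apply measure_mono
        intro x hx
        by_cases hb : x ∈ Bd T
        · right; exact ⟨hb, hx⟩
        · left; exact hb
    _ ≤ gau (HId T × HId T) (Bd T)ᶜ + gau (HId T × HId T) F := measure_union_le _ _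
    _ ≤ 1 / 20 + (11 / 10) * gau (HId T × HId T) (vw (betaW T) ⁻¹' W) := by gcongr

/-- right multiplication in coordinates -/
def RM (U : Matrix (HId T) (HId T) ℂ) : VV T →ₗ[ℝ] VV T where
  toFun x := fun p => ∑ k, x (p.1, k) * U k p.2
  map_add' x y := by
    ext p
    simp [add_mul, Finset.sum_add_distrib]
  map_smul' c x := by
    ext p
    simp only [Pi.smul_apply, RingHom.id_apply, Finset.smul_sum]
    apply Finset.sum_congr rfl
    intro i _
    rw [smul_mul_assoc]

lemma rd_RM (U : Matrix (HId T) (HId T) ℂ) (x : VV T) :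
    rd (sf T) (RM U x) = rd (sf T) x * U := by
  ext i j
  rw [Matrix.mul_apply]
  rfl

lemma rd_sf_inj {x y : VV T} (h : rd (sf T) x = rd (sf T) y) : x = y := by
  ext p
  exact congrFun (congrFun h p.1) p.2

lemma vec_norm (U : Matrix (HId T) (HId T) ℂ) (hU : U ∈ Matrix.unitaryGroup (HId T) ℂ)
    (v : HId T → ℂ) : ∑ j, ‖(v ᵥ* U) j‖ ^ 2 = ∑ k, ‖v k‖ ^ 2 := by
  have h1 : (v ᵥ* U) ⬝ᵥ star (v ᵥ* U) = v ⬝ᵥ star v := by
    rw [Matrix.star_vecMul, ← Matrix.dotProduct_mulVec, Matrix.mulVec_mulVec]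
    have : U * Uᴴ = 1 := by
      have := (Matrix.mem_unitaryGroup_iff).mp hU
      rwa [Matrix.star_eq_conjTranspose] at this
    rw [this, Matrix.one_mulVec]
  have h2 : ∀ u : HId T → ℂ, u ⬝ᵥ star u = ((∑ k, ‖u k‖ ^ 2 : ℝ) : ℂ) := by
    intro u
    rw [dotProduct]
    push_cast
    apply Finset.sum_congr rfl
    intro k _
    rw [Pi.star_apply, RCLike.star_def, Complex.mul_conj']
  rw [h2, h2] at h1
  exact_mod_cast h1

lemma nsq_RM (U : Matrix (HId T) (HId T) ℂ) (hU : U ∈ Matrix.unitaryGroup (HId T) ℂ) (x : VV T) :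
    nsq (RM U x) = nsq x := by
  have key : ∀ z : VV T, nsq z = ∑ i, ∑ j, ‖z (i, j)‖ ^ 2 := fun z => Fintype.sum_prod_type _
  rw [key, key]
  apply Finset.sum_congr rfl
  intro i _
  exact vec_norm U hU (fun k => x (i, k))

lemma gau_RM (U : Matrix (HId T) (HId T) ℂ) (hU : U ∈ Matrix.unitaryGroup (HId T) ℂ) :
    (gau (HId T × HId T)).map (RM U) = gau (HId T × HId T) := by
  apply gau_map_of_isometry _ _ (nsq_RM U hU)
  intro y
  refine ⟨RM (star U) y, ?_⟩
  apply rd_sf_inj
  rw [rd_RM, rd_RM, Matrix.mul_assoc, (Matrix.mem_unitaryGroup_iff').mp hU, Matrix.mul_one]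

/-- vectors as matrices -/
def eM (T : ℕ) : VV T ≃ᵐ Matrix (HId T) (HId T) ℂ := MeasurableEquiv.curry (HId T) (HId T) ℂ

lemma eM_apply (x : VV T) : eM T x = rd (sf T) x := rfl

/-- **Piece I.** -/
theorem gaussian_piece (T : ℕ) (hT : 10 ≤ T) :
    ∃ γ : Measure (Matrix (HId T) (HId T) ℂ), IsProbabilityMeasure γ ∧
      (∀ U ∈ Matrix.unitaryGroup (HId T) ℂ, γ.map (fun L => L * U) = γ) ∧
      γ {L | ¬ GoodL L} ≤ 1/20 ∧
      (∀ᵐ L ∂γ, Generic (st T) (cj (alphaW T) L)) ∧
      (∀ᵐ L ∂γ, Generic (st T) (cj (betaW T) L)) ∧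
      ∀ W : Set (Fin (T + 1) → Fin T → (HId T → ℂ)), MeasurableSet W →
        γ {L | NV (st T) (cj (alphaW T) L) ∈ W} ≤
          1/20 + (11/10) * γ {L | NV (st T) (cj (betaW T) L) ∈ W} := by
  have hn := nn_ge hT
  have hn0 : 0 < nn T := by linarith
  refine ⟨(gau (HId T × HId T)).map (eM T), ?_, ?_, ?_, ?_, ?_, ?_⟩
  · exact Measure.isProbabilityMeasure_map (eM T).measurable.aemeasurable
  · intro U hU
    have hmm : Measurable (fun L : Matrix (HId T) (HId T) ℂ => L * U) := by
      refine measurable_pi_iff.mpr fun i => measurable_pi_iff.mpr fun j => ?_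
      simp only [Matrix.mul_apply]
      refine Finset.measurable_sum _ fun k _ => Measurable.mul ?_ measurable_const
      exact (measurable_pi_apply k).comp (measurable_pi_apply (X := fun _ => HId T → ℂ) i)
    have hmR : Measurable (RM U) := (LinearMap.continuous_of_finiteDimensional (RM U)).measurable
    rw [Measure.map_map hmm (eM T).measurable]
    have h1 : (fun L : Matrix (HId T) (HId T) ℂ => L * U) ∘ (eM T) = (eM T) ∘ (RM U) := by
      ext1 x
      simp only [Function.comp, eM_apply, rd_RM]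
    rw [h1, ← Measure.map_map (eM T).measurable hmR, gau_RM U hU]
  · rw [MeasurableEquiv.map_apply]
    have h4 := gau_bad (κ := HId T × HId T) (sf_inj (T := T)) (B := nn T ^ 2) (by positivity)
    calc gau (HId T × HId T) (eM T ⁻¹' {L | ¬ GoodL L})
        ≤ gau (HId T × HId T) {x : VV T | ¬ ((∀ k, ‖x k‖ ≤ nn T ^ 2) ∧ (rd (sf T) x).det ≠ 0 ∧
              ∀ p r, ‖(rd (sf T) x)⁻¹ p r‖ ≤ nn T ^ 2)} := by
          refine measure_mono ?_
          intro x hx
          simp only [mem_preimage, mem_ofPred_eq] at hx ⊢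
          intro hcon
          apply hx
          exact ⟨hcon.2.1, fun i j => hcon.1 (i, j), hcon.2.2⟩
      _ ≤ _ := h4
      _ ≤ ENNReal.ofReal (1 / 20) := by
          apply ENNReal.ofReal_le_ofReal
          have h6 : (Fintype.card (HId T × HId T) : ℝ) = nn T ^ 2 := by
            rw [Fintype.card_prod (HId T) (HId T)]
            unfold nn
            push_cast
            ring
          have h7 : (Fintype.card (HId T) : ℝ) = nn T := rfl
          rw [h6, h7, div_le_div_iff₀ (by positivity) (by norm_num)]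
          have h9 : (1000 : ℝ) ^ 2 ≤ nn T ^ 2 := by gcongr
          nlinarith [sq_nonneg (nn T)]
      _ = 1 / 20 := by
          rw [ENNReal.ofReal_div_of_pos (by norm_num)]
          norm_num
  · rw [(eM T).measurableEmbedding.ae_map_iff]
    filter_upwards [det_ne_zero_ae (κ := HId T × HId T) (sf_inj (T := T)),
      det_ne_zero_ae (κ := HId T × HId T) (sg_inj (T := T))] with x h1 h2
    exact generic_of _ x h1 h2
  · rw [(eM T).measurableEmbedding.ae_map_iff]
    filter_upwards [det_ne_zero_ae (κ := HId T × HId T) (sf_inj (T := T)),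
      det_ne_zero_ae (κ := HId T × HId T) (sg_inj (T := T))] with x h1 h2
    exact generic_of _ x h1 h2
  · intro W hW
    rw [MeasurableEquiv.map_apply, MeasurableEquiv.map_apply]
    exact gau_compare hT W hW

end

end Pool.Agent.Helper561.Matvec
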